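import Mathlib

set_option autoImplicit false

namespace Pool.Agent.Results.MP_35204b_gt.Yes

open Set Filter Topology Function

universe u v w

/-- No strictly coarser Hausdorff group topology (`τ ≤ σ` means that `σ` is coarser than `τ`). -/
def Min (G : Type u) [Group G] [τ : TopologicalSpace G] : Prop :=
  ∀ σ : TopologicalSpace G, @IsTopologicalGroup G σ _ → @T2Space G σ → τ ≤ σ → σ = τ

/-- All quotients by closed normal subgroups are minimal. -/
def TotMin (G : Type u) [Group G] [TopologicalSpace G] : Prop :=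
  ∀ (N : Subgroup G) [N.Normal], IsClosed (N : Set G) → Min (G ⧸ N)

def CMin (G : Type u) [Group G] [TopologicalSpace G] : Prop :=
  ∀ H : Subgroup G, IsClosed (H : Set G) → Min H

def CTotMin (G : Type u) [Group G] [TopologicalSpace G] : Prop :=
  ∀ H : Subgroup G, IsClosed (H : Set G) → TotMin H

lemma mo {G : Type u} {Q : Type v} [Group G] [TopologicalSpace G] [Group Q] [TopologicalSpace Q]
    [IsTopologicalGroup Q] [T2Space Q] (h : Min G) {ψ : G →* Q} (c : Continuous ψ) (b : Bijective ψ) :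
    ∀ V ∈ 𝓝 (1 : G), ψ '' V ∈ 𝓝 (1 : Q) := by
  have e := h (TopologicalSpace.induced ψ inferInstance) (topologicalGroup_induced ψ)
    (@IsEmbedding.t2Space G Q (TopologicalSpace.induced ψ inferInstance) _ _ _ b.1.isEmbedding_induced)
    c.le_induced
  intro V hV
  rw [(⟨e.symm⟩ : IsInducing ψ).nhds_eq_comap, map_one] at hV
  obtain ⟨W, w1, w2⟩ := hV
  refine mem_of_superset w1 fun q hq => ?_
  obtain ⟨a, rfl⟩ := b.2 q
  exact ⟨a, w2 hq, rfl⟩

lemma om {G : Type u} [g : Group G] [τ : TopologicalSpace G] [t : IsTopologicalGroup G]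
    (h : ∀ (L : Type u) [Group L] [TopologicalSpace L] [IsTopologicalGroup L] [T2Space L] (f : G →* L),
      Continuous f → Bijective f → ∀ U ∈ 𝓝 (1 : G), f '' U ∈ 𝓝 (1 : L)) : Min G := by
  intro σ s1 s2 s3
  refine IsTopologicalGroup.ext s1 t (le_antisymm (fun U hU => ?_) (nhds_mono s3))
  simpa using @h G g σ s1 s2 (MonoidHom.id G) (continuous_id_of_le s3) bijective_id U hU

lemma key {A : Type u} {K : Type v} {L : Type w} [CommGroup A] [TopologicalSpace A] [IsTopologicalGroup A]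
    [T2Space A] [Group K] [TopologicalSpace K] [IsTopologicalGroup K] [CompactSpace K]
    [Group L] [TopologicalSpace L] [IsTopologicalGroup L] [T2Space L]
    {H : Subgroup (A × K)} (hH : IsClosed (H : Set (A × K))) {f : H →* L} (c : Continuous f) (s : Surjective f)
    (hA : ∀ (Q : Type (max u w)) [Group Q] [TopologicalSpace Q] [IsTopologicalGroup Q] [T2Space Q] (ψ : A →* Q),
      Continuous ψ → Surjective ψ → (Injective f → Injective ψ) → ∀ V ∈ 𝓝 (1 : A), ψ '' V ∈ 𝓝 (1 : Q)) :
    ∀ U ∈ 𝓝 (1 : H), f '' U ∈ 𝓝 (1 : L) := by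
  let π : H →* A := (MonoidHom.fst A K).comp H.subtype
  let φ : H →* A × L := π.prod f
  have cφ : Continuous φ := (continuous_fst.comp continuous_subtype_val).prodMk c
  have pφ : IsClosedMap φ := (isProperMap_of_comp_of_t2 cφ continuous_fst
    ((isProperMap_fst_of_compactSpace (X := A) (Y := K)).comp hH.isProperMap_subtypeVal :)).isClosedMap
  have : φ.range.Normal := ⟨by
    rintro _ ⟨x, rfl⟩ ⟨a, l⟩
    obtain ⟨y, rfl⟩ := s l
    exact ⟨y * x * y⁻¹, Prod.ext (by simp [φ]) (by simp [φ])⟩⟩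
  have : IsClosed (φ.range : Set (A × L)) := pφ.isClosed_range
  let ψ : A →* (A × L) ⧸ φ.range := (QuotientGroup.mk' _).comp (MonoidHom.inl A L)
  have a := hA _ ψ (QuotientGroup.continuous_mk.comp (continuous_id.prodMk continuous_const))
    (fun q => by
      obtain ⟨⟨a, l⟩, rfl⟩ := QuotientGroup.mk_surjective q
      obtain ⟨y, rfl⟩ := s l
      exact ⟨a * (π y)⁻¹, QuotientGroup.eq.2 ⟨y, Prod.ext (by simp [φ]) (by simp [φ])⟩⟩)
    fun i => (injective_iff_map_eq_one ψ).2 fun a ha => by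
      obtain ⟨y, hy⟩ := (QuotientGroup.eq_one_iff _).1 ha
      have e : y = 1 := i ((congrArg Prod.snd hy).trans (map_one f).symm)
      simpa [e] using (congrArg Prod.fst hy).symm
  intro U hU
  obtain ⟨O, o1, o2, o3⟩ := mem_nhds_iff.1 hU
  have e : IsOpen (f ⁻¹' (f '' O)) := isOpen_iff_mem_nhds.2 fun x ⟨y, y1, y2⟩ =>
    mem_of_superset ((o2.preimage (continuous_const_mul (y * x⁻¹))).mem_nhds (by simpa using y1))
      fun z hz => ⟨_, hz, by simp [y2]⟩
  obtain ⟨V, v1, W, w1, h⟩ := mem_nhds_prod_iff.1 ((pφ _ e.isClosed_compl).isOpen_compl.mem_nhds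
    (x := (1, 1)) fun ⟨y, y1, y2⟩ => y1 ⟨1, o3, (map_one f).trans (congrArg Prod.snd y2).symm⟩)
  have b : Continuous fun l : L => (QuotientGroup.mk (1, l⁻¹) : (A × L) ⧸ φ.range) :=
    QuotientGroup.continuous_mk.comp (continuous_const.prodMk continuous_inv)
  refine mem_of_superset (inter_mem w1 (b.continuousAt.preimage_mem_nhds (t := ψ '' V)
    (by rw [inv_one]; exact a V v1))) fun l ⟨l1, x, x1, x2⟩ => ?_
  obtain ⟨y, hy⟩ := QuotientGroup.eq.1 x2.symm
  have y1 : π y = x := by simpa [φ] using congrArg Prod.fst hy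
  have y2 : f y = l := by simpa [φ] using congrArg Prod.snd hy
  by_contra n
  exact h (show (x, l) ∈ V ×ˢ W from ⟨x1, l1⟩) ⟨y, fun z => n (y2 ▸ image_mono o1 z), Prod.ext y1 y2⟩

theorem result (A : Type u) (K : Type v) [CommGroup A] [TopologicalSpace A] [IsTopologicalGroup A] [T2Space A]
    [Group K] [TopologicalSpace K] [IsTopologicalGroup K] [CompactSpace K] [T2Space K] :
    (Min A → CMin (A × K)) ∧ (TotMin A → CTotMin (A × K)) := by
  refine ⟨fun h H hH => om fun L _ _ _ _ f c b => key hH c b.2 fun Q _ _ _ _ ψ p1 p2 p3 => mo h p1 ⟨p3 b.1, p2⟩,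
    fun h H hH N _ hN => om fun L _ _ _ _ f c b U hU => ?_⟩
  refine mem_of_superset (key hH (f := f.comp (QuotientGroup.mk' N)) (c.comp QuotientGroup.continuous_mk)
    (b.2.comp QuotientGroup.mk_surjective) (fun Q _ _ _ _ ψ p1 p2 _ V hV => ?_) _
    (QuotientGroup.continuous_mk.continuousAt.preimage_mem_nhds hU)) ?_
  · have := mo (h ψ.ker (isClosed_singleton.preimage p1)) (ψ := QuotientGroup.kerLift ψ)
      (QuotientGroup.isQuotientMap_mk _ |>.continuous_iff.2 p1)
      ⟨QuotientGroup.kerLift_injective ψ, fun q => (p2 q).elim fun a e => ⟨a, e⟩⟩ _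
      (QuotientGroup.isOpenMap_coe.image_mem_nhds hV)
    rwa [image_image] at this
  · rintro _ ⟨x, hx, rfl⟩
    exact ⟨_, hx, rfl⟩

end Pool.Agent.Results.MP_35204b_gt.Yes
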